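import Pool.Agent.H61.BRX.Stmts

/-!
# Board `brx`, row LGS: the telescoping sum of the logarithms
-/

set_option autoImplicit false

namespace Pool.STN

theorem lgs_step (x : ℕ) (hx : 2 ≤ x) :
    (x % 3 = 0 → Real.log (F x : ℝ) - Real.log (x : ℝ) =
      -(Real.log (4 / 3) + Real.log (9 / 8))) ∧
    (¬ x % 3 = 0 → |Real.log (F x : ℝ) - Real.log (x : ℝ) - Real.log (4 / 3)| ≤
      1 / (3 * (x : ℝ))) := by
  have hx0 : (0 : ℝ) < x := by
    have : 0 < x := by omega
    exact_mod_cast this
  have hx1 : (2 : ℝ) ≤ x := by exact_mod_cast hx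
  constructor
  · intro h
    have h1 : 3 * F x = 2 * x := by
      unfold F
      split_ifs <;> omega
    have h2 : (F x : ℝ) = x * (2 / 3) := by
      have h3 : (3 : ℝ) * (F x : ℝ) = 2 * x := by exact_mod_cast h1
      linarith only [h3]
    have h4 : (4 / 3 : ℝ) * (9 / 8) = (2 / 3)⁻¹ := by norm_num
    have h5 : Real.log (4 / 3) + Real.log (9 / 8) = Real.log ((2 / 3 : ℝ)⁻¹) := by
      rw [← h4, Real.log_mul (by norm_num) (by norm_num)]
    rw [h2, Real.log_mul hx0.ne' (by norm_num), h5, Real.log_inv]
    ring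
  · intro h
    have h1 : 3 * F x = 4 * x + 1 ∨ 3 * F x + 1 = 4 * x := by
      unfold F
      split_ifs <;> omega
    have ht0 : (0 : ℝ) < 1 / (4 * x) := by positivity
    rcases h1 with h1 | h1
    · have h2 : (F x : ℝ) = x * (4 / 3) * (1 + 1 / (4 * x)) := by
        have h3 : (3 : ℝ) * (F x : ℝ) = 4 * x + 1 := by exact_mod_cast h1
        field_simp
        linarith only [h3]
      rw [h2, Real.log_mul (by positivity) (by positivity), Real.log_mul hx0.ne' (by norm_num)]
      have h5 : Real.log x + Real.log (4 / 3) + Real.log (1 + 1 / (4 * x)) - Real.log x -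
          Real.log (4 / 3) = Real.log (1 + 1 / (4 * (x : ℝ))) := by ring
      rw [h5, abs_of_nonneg (Real.log_nonneg (by linarith only [ht0]))]
      have h6 := Real.log_le_sub_one_of_pos (show (0 : ℝ) < 1 + 1 / (4 * x) by linarith only [ht0])
      have h7 : (1 : ℝ) / (4 * x) ≤ 1 / (3 * x) := by
        apply one_div_le_one_div_of_le (by positivity)
        linarith only [hx0]
      linarith only [h6, h7]
    · have ht1 : (1 : ℝ) / (4 * x) ≤ 1 / 8 := by
        apply one_div_le_one_div_of_le (by norm_num)
        linarith only [hx1]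
      have hp : (0 : ℝ) < 1 - 1 / (4 * x) := by linarith only [ht1]
      have h2 : (F x : ℝ) = x * (4 / 3) * (1 - 1 / (4 * x)) := by
        have h3 : (3 : ℝ) * (F x : ℝ) + 1 = 4 * x := by exact_mod_cast h1
        field_simp
        linarith only [h3]
      rw [h2, Real.log_mul (by positivity) hp.ne', Real.log_mul hx0.ne' (by norm_num)]
      have h5 : Real.log x + Real.log (4 / 3) + Real.log (1 - 1 / (4 * x)) - Real.log x -
          Real.log (4 / 3) = Real.log (1 - 1 / (4 * (x : ℝ))) := by ring
      rw [h5, abs_of_nonpos (Real.log_nonpos hp.le (by linarith only [ht0])), ← Real.log_inv]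
      have h6 := Real.log_le_sub_one_of_pos (inv_pos.2 hp)
      have h8 : (1 - 1 / (4 * (x : ℝ)))⁻¹ - 1 ≤ 1 / (3 * x) := by
        have h9 : (1 - 1 / (4 * (x : ℝ)))⁻¹ - 1 = 1 / (4 * x - 1) := by
          have h10 : (4 * (x : ℝ) - 1) ≠ 0 := by
            intro h11
            linarith only [h11, hx1]
          have h12 : 1 - 1 / (4 * (x : ℝ)) = (4 * x - 1) / (4 * x) := by
            field_simp
          rw [h12, inv_div]
          field_simp
          ring
        rw [h9]
        apply one_div_le_one_div_of_le (by positivity)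
        linarith only [hx1]
      exact h6.trans h8

theorem LGS_thm : LGSStmt := by
  intro m k hm hk
  have h1 : ∀ i, |(Real.log (F^[i + 1] m : ℝ) - Real.log (F^[i] m : ℝ)) -
      (if dd m i then -(Real.log (4 / 3) + Real.log (9 / 8)) else Real.log (4 / 3))| ≤
      if dd m i then (0 : ℝ) else 1 / (3 * (F^[i] m : ℝ)) := by
    intro i
    obtain ⟨h2, h3⟩ := lgs_step (F^[i] m) (hm i)
    rw [Function.iterate_succ_apply']
    by_cases hd : dd m i
    · rw [if_pos hd, if_pos hd, h2 hd, sub_self, abs_zero]
    · rw [if_neg hd, if_neg hd]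
      exact h3 hd
  have h4 : ∑ i ∈ Finset.range k, (Real.log (F^[i + 1] m : ℝ) - Real.log (F^[i] m : ℝ)) = 0 := by
    rw [Finset.sum_range_sub (fun i => Real.log (F^[i] m : ℝ)), hk, Function.iterate_zero, id_eq,
      sub_self]
  have h5 : ∑ i ∈ Finset.range k,
      (if dd m i then -(Real.log (4 / 3) + Real.log (9 / 8)) else Real.log (4 / 3)) =
      -((((Finset.range k).filter fun i => dd m i).card : ℝ) *
          (Real.log (4 / 3) + Real.log (9 / 8))) +
        (((Finset.range k).filter fun i => ¬ dd m i).card : ℝ) * Real.log (4 / 3) := by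
    rw [Finset.sum_ite, Finset.sum_const, Finset.sum_const, nsmul_eq_mul, nsmul_eq_mul]
    ring
  have h6 : ((((Finset.range k).filter fun i => dd m i).card : ℝ) -
          ((Finset.range k).filter fun i => ¬ dd m i).card) * Real.log (4 / 3) +
        ((Finset.range k).filter fun i => dd m i).card * Real.log (9 / 8) =
      ∑ i ∈ Finset.range k, ((Real.log (F^[i + 1] m : ℝ) - Real.log (F^[i] m : ℝ)) -
        (if dd m i then -(Real.log (4 / 3) + Real.log (9 / 8)) else Real.log (4 / 3))) := by
    rw [Finset.sum_sub_distrib, h4, h5]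
    ring
  rw [h6]
  exact (Finset.abs_sum_le_sum_abs _ _).trans (Finset.sum_le_sum fun i _ => h1 i)

end Pool.STN
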